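import Pool.Agent.Helper165.LT.Main

set_option autoImplicit false

open Pool.Agent.Helper165.LT

universe u

/-- For every algebraically closed field `k` of characteristic `2` there are two actions of
`ℤ/2` on `k[[u,v]]`, with the closed point as the only fixed point, which have the same
invariants `(r, n)` and such that the first quotient is log terminal and the second one is not
(although its canonical divisor is Cartier). -/
theorem Pool.Agent.Results.MP_f6ab55_ag.LogTerminal.result (k : Type u) [Field k] [IsAlgClosed k]
    [CharP k 2] :
    ∃ (σ₁ σ₂ : MvPowerSeries (Fin 2) k ≃ₐ[k] MvPowerSeries (Fin 2) k) (r n : ℕ),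
      (IsWildAction 2 σ₁ ∧ HasInvariants σ₁ r n ∧ IsLogTerminal k (invariants σ₁)) ∧
      (IsWildAction 2 σ₂ ∧ HasInvariants σ₂ r n ∧ IsCanonicalCartier k (invariants σ₂) ∧
        ¬ IsLogTerminal k (invariants σ₂)) :=
  main k
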